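import Mathlib

/-!
# A counterexample to `ker D_{n-1} = SC_n` already for `n = 1` and `Γ = ℤ²`

We use the presentation complex of `⟨s, t ∣ s t s⁻¹ t⁻¹⟩`, i.e. the standard cell structure of the
torus, which is a `K(ℤ², 1)`.
-/

namespace Pool.Agent.Results.MP_abda90_al.TorusCounterexample

open scoped Matrix
open MonoidAlgebra

/-- The involution `(∑ a_γ γ)^* = ∑ a_γ γ⁻¹` of the real group algebra `ℝΓ`. -/
noncomputable def gstar {Γ : Type} [Group Γ] (x : MonoidAlgebra ℝ Γ) : MonoidAlgebra ℝ Γ :=
  MonoidAlgebra.mapDomain (fun g : Γ => g⁻¹) x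

/-- The adjoint `a^*` of a matrix over `ℝΓ`: the transpose, with the involution applied to every
entry. -/
noncomputable def adj {Γ : Type} [Group Γ] {p q : ℕ}
    (a : Matrix (Fin p) (Fin q) (MonoidAlgebra ℝ Γ)) :
    Matrix (Fin q) (Fin p) (MonoidAlgebra ℝ Γ) :=
  aᵀ.map gstar

/-- The augmentation `∑ a_γ γ ↦ ∑ a_γ` of the real group algebra. -/
noncomputable def aug {Γ : Type} [Group Γ] (x : MonoidAlgebra ℝ Γ) : ℝ :=
  x.coeff.sum fun _ c => c

/-- The group presented by the generators `x_i`, `i : Fin k₁`, and the relator words `r j`,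
`j : Fin k₂`; the letter `(i, true)` stands for `x_i` and `(i, false)` for `x_i⁻¹`. -/
abbrev Grp {k₁ k₂ : ℕ} (r : Fin k₂ → List (Fin k₁ × Bool)) : Type :=
  PresentedGroup (Set.range fun j => FreeGroup.mk (r j))

/-- The image in `ℝΓ` of the Fox derivative `∂w/∂x_j` of a word `w`:
`∂(x_i w)/∂x_j = δ_{ij} + x_i ∂w/∂x_j` and `∂(x_i⁻¹ w)/∂x_j = x_i⁻¹ (- δ_{ij} + ∂w/∂x_j)`. -/
noncomputable def fox {k₁ k₂ : ℕ} (r : Fin k₂ → List (Fin k₁ × Bool)) (j : Fin k₁) :
    List (Fin k₁ × Bool) → MonoidAlgebra ℝ (Grp r)
  | [] => 0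
  | (i, true) :: w => (if i = j then 1 else 0) + single (PresentedGroup.of i) 1 * fox r j w
  | (i, false) :: w => single (PresentedGroup.of i)⁻¹ 1 * (-(if i = j then 1 else 0) + fox r j w)

/-- The boundary matrix `d₀` of the universal cover of the presentation complex: the column with
entries `1 - x_i`. -/
noncomputable def d₀ {k₁ k₂ : ℕ} (r : Fin k₂ → List (Fin k₁ × Bool)) :
    Matrix (Fin k₁) (Fin 1) (MonoidAlgebra ℝ (Grp r)) :=
  fun i _ => 1 - single (PresentedGroup.of i) 1

/-- The boundary matrix `d₁` of the universal cover of the presentation complex: the matrix of Fox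
derivatives of the relators. -/
noncomputable def d₁ {k₁ k₂ : ℕ} (r : Fin k₂ → List (Fin k₁ × Bool)) :
    Matrix (Fin k₂) (Fin k₁) (MonoidAlgebra ℝ (Grp r)) :=
  fun i j => fox r j (r i)

/-- The presentation `⟨s, t ∣ s t s⁻¹ t⁻¹⟩` of `ℤ²`, with `s = x_0` and `t = x_1`; its presentation
complex is the torus with one vertex, two edges and one face. -/
def torus : Fin 1 → List (Fin 2 × Bool) :=
  fun _ => [(0, true), (1, true), (0, false), (1, false)]

/-! ### Auxiliary facts -/

section aux

/-- the generator `s` -/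
noncomputable abbrev s : Grp torus := PresentedGroup.of 0
/-- the generator `t` -/
noncomputable abbrev t : Grp torus := PresentedGroup.of 1

lemma rel : s * t * s⁻¹ * t⁻¹ = 1 := by
  have h : PresentedGroup.mk (Set.range fun j => FreeGroup.mk (torus j))
      (FreeGroup.mk (torus 0)) = 1 :=
    PresentedGroup.one_of_mem ⟨0, rfl⟩
  have h2 : FreeGroup.mk (torus 0)
      = FreeGroup.of 0 * FreeGroup.of 1 * (FreeGroup.of 0)⁻¹ * (FreeGroup.of 1)⁻¹ := by
    simp [torus, FreeGroup.of, FreeGroup.invRev]
  rw [h2] at h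
  simpa [s, t, PresentedGroup.of] using h

lemma comm_st : s * t = t * s := by
  have h := rel
  have : s * t = t * s := by
    calc s * t = (s * t * s⁻¹ * t⁻¹) * t * s := by group
      _ = t * s := by rw [h]; group
  exact this

lemma closure_st : Subgroup.closure ({s, t} : Set (Grp torus)) = ⊤ := by
  have h1 := PresentedGroup.closure_range_of (Set.range fun j => FreeGroup.mk (torus j))
  have h2 : (Set.range (PresentedGroup.of : Fin 2 → Grp torus)) = {s, t} := by
    ext x
    constructor
    · rintro ⟨i, rfl⟩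
      fin_cases i
      · left; rfl
      · right; rfl
    · rintro (rfl | rfl)
      · exact ⟨0, rfl⟩
      · exact ⟨1, rfl⟩
  rw [← h2, h1]

lemma comm_all (g h : Grp torus) : g * h = h * g := by
  have hc : ∀ x ∈ ({s, t} : Set (Grp torus)), ∀ y ∈ ({s, t} : Set (Grp torus)), x * y = y * x := by
    rintro x (rfl | rfl) y (rfl | rfl)
    · rfl
    · exact comm_st
    · exact comm_st.symm
    · rfl
  have hC := Subgroup.isMulCommutative_closure hc
  have hg : g ∈ Subgroup.closure ({s, t} : Set (Grp torus)) := by rw [closure_st]; trivial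
  have hh : h ∈ Subgroup.closure ({s, t} : Set (Grp torus)) := by rw [closure_st]; trivial
  have := hC.is_comm.comm ⟨g, hg⟩ ⟨h, hh⟩
  exact congrArg Subtype.val this

/-- the group `ℤ²`, written multiplicatively -/
abbrev Z2 := Multiplicative (ℤ × ℤ)

/-- `s ↦ (1, 0)`, `t ↦ (0, 1)` -/
noncomputable def φ : Grp torus →* Z2 :=
  PresentedGroup.toGroup (f := ![Multiplicative.ofAdd (1, 0), Multiplicative.ofAdd (0, 1)]) (by
    rintro _ ⟨j, rfl⟩
    simp [torus])

lemma φ_s : φ s = Multiplicative.ofAdd (1, 0) := by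
  simp [φ, s]

lemma φ_t : φ t = Multiplicative.ofAdd (0, 1) := by
  simp [φ, t]

/-- `(i, j) ↦ s^i t^j` -/
noncomputable def ψ : Z2 →* Grp torus where
  toFun x := s ^ (Multiplicative.toAdd x).1 * t ^ (Multiplicative.toAdd x).2
  map_one' := by simp
  map_mul' x y := by
    have h : ∀ a b : Grp torus, Commute a b := comm_all
    simp only [toAdd_mul, Prod.fst_add, Prod.snd_add, zpow_add]
    rw [mul_assoc, mul_assoc]
    congr 1
    rw [← mul_assoc, ← mul_assoc]
    congr 1
    exact comm_all _ _

lemma ψ_φ (x : Grp torus) : ψ (φ x) = x := by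
  have : (ψ.comp φ) = MonoidHom.id _ := by
    apply PresentedGroup.ext
    intro i
    fin_cases i
    · change ψ (φ s) = s
      rw [φ_s]; simp [ψ]
    · change ψ (φ t) = t
      rw [φ_t]; simp [ψ]
  exact DFunLike.congr_fun this x

lemma φ_ψ (x : Z2) : φ (ψ x) = x := by
  obtain ⟨i, j⟩ := x
  change φ (s ^ i * t ^ j) = _
  rw [map_mul, map_zpow, map_zpow, φ_s, φ_t]
  rw [← ofAdd_zsmul, ← ofAdd_zsmul, ← ofAdd_add]
  simp
  rfl

/-- the presented group is `ℤ²` -/
noncomputable def e : Grp torus ≃* Z2 where
  toFun := φ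
  invFun := ψ
  left_inv := ψ_φ
  right_inv := φ_ψ
  map_mul' := map_mul φ

/-- the real group algebra -/
abbrev R := MonoidAlgebra ℝ (Grp torus)

lemma R_comm (x y : R) : x * y = y * x := by
  induction x using MonoidAlgebra.induction_linear with
  | zero => simp
  | add a b ha hb => rw [add_mul, mul_add, ha, hb]
  | single g c =>
    induction y using MonoidAlgebra.induction_linear with
    | zero => simp
    | add a b ha hb => rw [add_mul, mul_add, ha, hb]
    | single h d => rw [single_mul_single, single_mul_single, comm_all, mul_comm c d]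

lemma R_mul_eq_zero {x y : R} (h : x * y = 0) : x = 0 ∨ y = 0 := by
  have hinj : Function.Injective (mapDomainRingHom ℝ φ) := by
    apply MonoidAlgebra.mapDomain_injective
    exact e.injective
  have h2 : mapDomainRingHom ℝ φ x * mapDomainRingHom ℝ φ y = 0 := by
    rw [← map_mul, h, map_zero]
  rcases mul_eq_zero.1 h2 with h3 | h3
  · left; exact hinj (by rw [h3, map_zero])
  · right; exact hinj (by rw [h3, map_zero])

/-- the element `s` of `ℝΓ` -/
noncomputable abbrev S : R := single s 1
/-- the element `t` of `ℝΓ` -/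
noncomputable abbrev T : R := single t 1

lemma one_sub_S_ne : (1 : R) - S ≠ 0 := by
  intro h
  have h1 : (single 1 1 : R) = single s 1 := by
    exact sub_eq_zero.1 h
  have h2 : (1 : Grp torus) = s := (MonoidAlgebra.single_left_inj one_ne_zero).1 h1
  have h3 := congrArg φ h2
  rw [map_one, φ_s] at h3
  have h4 := congrArg (fun x : Z2 => (Multiplicative.toAdd x).1) h3
  simp at h4

lemma one_sub_T_ne : (1 : R) - T ≠ 0 := by
  intro h
  have h1 : (single 1 1 : R) = single t 1 := by
    exact sub_eq_zero.1 h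
  have h2 : (1 : Grp torus) = t := (MonoidAlgebra.single_left_inj one_ne_zero).1 h1
  have h3 := congrArg φ h2
  rw [map_one, φ_t] at h3
  have h4 := congrArg (fun x : Z2 => (Multiplicative.toAdd x).2) h3
  simp at h4

/-- the retraction killing `t` -/
noncomputable def π : Grp torus →* Grp torus :=
  PresentedGroup.toGroup (f := ![s, 1]) (by
    rintro _ ⟨j, rfl⟩
    simp [torus])

lemma π_s : π s = s := by simp [π, s]
lemma π_t : π t = 1 := by simp [π, t]

lemma sub_π_single (g : Grp torus) : ∃ c : R, (single g 1 : R) - single (π g) 1 = c * (1 - T) := by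
  have hg : g ∈ Subgroup.closure ({s, t} : Set (Grp torus)) := by rw [closure_st]; trivial
  induction hg using Subgroup.closure_induction with
  | mem x hx =>
    rcases hx with rfl | rfl
    · exact ⟨0, by rw [π_s]; simp⟩
    · refine ⟨-1, ?_⟩
      rw [π_t]
      change T - 1 = _
      noncomm_ring
  | one => exact ⟨0, by simp⟩
  | mul x y _ _ hx hy =>
    obtain ⟨a, ha⟩ := hx
    obtain ⟨b, hb⟩ := hy
    refine ⟨single x 1 * b + single (π y) 1 * a, ?_⟩
    have h1 : (single (x * y) 1 : R) = single x 1 * single y 1 := by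
      rw [single_mul_single, one_mul]
    have h2 : (single (π (x * y)) 1 : R) = single (π x) 1 * single (π y) 1 := by
      rw [single_mul_single, one_mul, map_mul]
    calc (single (x * y) 1 : R) - single (π (x * y)) 1
        = single x 1 * (single y 1 - single (π y) 1)
          + (single x 1 - single (π x) 1) * single (π y) 1 := by rw [h1, h2]; noncomm_ring
      _ = _ := by
        rw [hb, ha, R_comm (a * (1 - T))]; noncomm_ring
  | inv x _ hx =>
    obtain ⟨a, ha⟩ := hx
    refine ⟨- (single x⁻¹ 1 * single (π x⁻¹) 1 * a), ?_⟩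
    have h1 : (single x⁻¹ 1 : R) * single x 1 = 1 := by
      rw [single_mul_single, one_mul, inv_mul_cancel]; rfl
    have h2 : (single (π x) 1 : R) * single (π x⁻¹) 1 = 1 := by
      rw [single_mul_single, one_mul, ← map_mul, mul_inv_cancel, map_one]; rfl
    calc (single x⁻¹ 1 : R) - single (π x⁻¹) 1
        = single x⁻¹ 1 * (single (π x) 1 * single (π x⁻¹) 1)
          - (single x⁻¹ 1 * single x 1) * single (π x⁻¹) 1 := by rw [h1, h2]; noncomm_ring
      _ = - (single x⁻¹ 1 * (single x 1 - single (π x) 1) * single (π x⁻¹) 1) := by noncomm_ring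
      _ = _ := by
        rw [ha, R_comm (single x⁻¹ 1 * (a * (1 - T))) (single (π x⁻¹) 1)]
        rw [← mul_assoc, ← mul_assoc, R_comm (single (π x⁻¹) 1) (single x⁻¹ 1)]
        noncomm_ring

lemma sub_π (x : R) : ∃ c : R, x - mapDomainRingHom ℝ π x = c * (1 - T) := by
  induction x using MonoidAlgebra.induction_linear with
  | zero => exact ⟨0, by simp⟩
  | add a b ha hb =>
    obtain ⟨c, hc⟩ := ha
    obtain ⟨d, hd⟩ := hb
    refine ⟨c + d, ?_⟩
    rw [map_add, add_mul, ← hc, ← hd]; abel
  | single g r =>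
    obtain ⟨c, hc⟩ := sub_π_single g
    refine ⟨r • c, ?_⟩
    have h1 : (single g r : R) = r • single g 1 := by rw [smul_single, smul_eq_mul, mul_one]
    have h2 : mapDomainRingHom ℝ π (single g r : R) = r • single (π g) 1 := by
      simp
    rw [h2, h1, ← smul_sub, hc, smul_mul_assoc]

/-- the augmentation as a ring homomorphism -/
noncomputable def augHom : R →+* ℝ := (MonoidAlgebra.lift ℝ ℝ (Grp torus) 1).toRingHom

lemma augHom_eq (x : R) : augHom x = aug x := by
  change MonoidAlgebra.lift ℝ ℝ (Grp torus) 1 x = _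
  rw [MonoidAlgebra.lift_apply]
  simp [aug]

lemma augHom_single (g : Grp torus) (c : ℝ) : augHom (single g c) = c := by
  change MonoidAlgebra.lift ℝ ℝ (Grp torus) 1 (single g c) = _
  rw [MonoidAlgebra.lift_single]
  simp

lemma sub_aug_single (g : Grp torus) :
    ∃ a b : R, (single g 1 : R) - 1 = a * (1 - S) + b * (1 - T) := by
  have hg : g ∈ Subgroup.closure ({s, t} : Set (Grp torus)) := by rw [closure_st]; trivial
  induction hg using Subgroup.closure_induction with
  | mem x hx =>
    rcases hx with rfl | rfl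
    · exact ⟨-1, 0, by change S - 1 = _; noncomm_ring⟩
    · exact ⟨0, -1, by change T - 1 = _; noncomm_ring⟩
  | one => exact ⟨0, 0, by simp [MonoidAlgebra.one_def]⟩
  | mul x y _ _ hx hy =>
    obtain ⟨a, b, h⟩ := hx
    obtain ⟨a', b', h'⟩ := hy
    refine ⟨single x 1 * a' + a, single x 1 * b' + b, ?_⟩
    have h1 : (single (x * y) 1 : R) = single x 1 * single y 1 := by
      rw [single_mul_single, one_mul]
    calc (single (x * y) 1 : R) - 1
        = single x 1 * (single y 1 - 1) + (single x 1 - 1) := by rw [h1]; noncomm_ring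
      _ = _ := by rw [h, h']; noncomm_ring
  | inv x _ hx =>
    obtain ⟨a, b, h⟩ := hx
    refine ⟨- (single x⁻¹ 1 * a), - (single x⁻¹ 1 * b), ?_⟩
    have h1 : (single x⁻¹ 1 : R) * single x 1 = 1 := by
      rw [single_mul_single, one_mul, inv_mul_cancel]; rfl
    calc (single x⁻¹ 1 : R) - 1
        = - (single x⁻¹ 1 * (single x 1 - 1)) := by
          rw [mul_sub, h1]; noncomm_ring
      _ = _ := by rw [h]; noncomm_ring

lemma sub_aug (x : R) : ∃ a b : R, x - single 1 (augHom x) = a * (1 - S) + b * (1 - T) := by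
  induction x using MonoidAlgebra.induction_linear with
  | zero => exact ⟨0, 0, by simp⟩
  | add x y hx hy =>
    obtain ⟨a, b, h⟩ := hx
    obtain ⟨a', b', h'⟩ := hy
    refine ⟨a + a', b + b', ?_⟩
    rw [map_add, single_add, add_mul, add_mul]
    calc x + y - (single 1 (augHom x) + single 1 (augHom y))
        = (x - single 1 (augHom x)) + (y - single 1 (augHom y)) := by abel
      _ = _ := by rw [h, h']; abel
  | single g r =>
    obtain ⟨a, b, h⟩ := sub_aug_single g
    refine ⟨r • a, r • b, ?_⟩
    rw [augHom_single]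
    have h1 : (single g r : R) = r • single g 1 := by rw [smul_single, smul_eq_mul, mul_one]
    have h2 : (single 1 r : R) = r • 1 := by
      rw [MonoidAlgebra.one_def, smul_single, smul_eq_mul, mul_one]
    rw [h1, h2, ← smul_sub, h, smul_add, smul_mul_assoc, smul_mul_assoc]

lemma d₀_zero : d₀ torus 0 0 = 1 - S := rfl
lemma d₀_one : d₀ torus 1 0 = 1 - T := rfl

lemma STS : S * (T * (single s⁻¹ 1 : R)) = T := by
  rw [single_mul_single, single_mul_single, one_mul, one_mul]
  congr 1
  rw [← mul_assoc, comm_st]; group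

lemma STST : S * (T * ((single s⁻¹ 1 : R) * single t⁻¹ 1)) = 1 := by
  rw [single_mul_single, single_mul_single, single_mul_single, MonoidAlgebra.one_def]
  simp only [one_mul]
  congr 1
  have := rel
  rw [← this]; group

lemma d₁_zero : d₁ torus 0 0 = 1 - T := by
  have h : d₁ torus 0 0
      = (1 : R) + S * (0 + T * (single s⁻¹ 1 * (-1 + single t⁻¹ 1 * (-0 + 0)))) := by
    change fox torus 0 [(0, true), (1, true), (0, false), (1, false)] = _
    rw [fox, fox, fox, fox, fox, if_pos rfl, if_neg one_ne_zero]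
  rw [h, neg_zero, add_zero, mul_zero, add_zero, zero_add, mul_neg, mul_one, mul_neg, mul_neg,
    ← sub_eq_add_neg, STS]

lemma d₁_one : d₁ torus 0 1 = S - 1 := by
  have h : d₁ torus 0 1
      = (0 : R) + S * (1 + T * (single s⁻¹ 1 * (-0 + single t⁻¹ 1 * (-1 + 0)))) := by
    change fox torus 1 [(0, true), (1, true), (0, false), (1, false)] = _
    rw [fox, fox, fox, fox, fox, if_pos rfl, if_neg zero_ne_one]
  rw [h, neg_zero, add_zero, zero_add, zero_add, mul_neg, mul_one, mul_neg, mul_neg, mul_add,
    mul_one, mul_neg, STST, ← sub_eq_add_neg]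

lemma augHom_gstar (x : R) : augHom (gstar x) = augHom x := by
  induction x using MonoidAlgebra.induction_linear with
  | zero => simp [gstar]
  | add x y hx hy =>
    have : gstar (x + y) = gstar x + gstar y := MonoidAlgebra.mapDomain_add _ _ _
    rw [this, map_add, hx, hy, map_add]
  | single g r =>
    have : gstar (single g r : R) = single g⁻¹ r := MonoidAlgebra.mapDomain_single
    rw [this, augHom_single, augHom_single]

lemma gstar_sub (x y : R) : gstar (x - y) = gstar x - gstar y := by
  have h := MonoidAlgebra.mapDomain_add (fun g : Grp torus => g⁻¹) (x - y) y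
  rw [sub_add_cancel] at h
  exact eq_sub_of_add_eq h.symm

lemma gstar_one_sub (g : Grp torus) : gstar (1 - single g 1 : R) = 1 - single g⁻¹ 1 := by
  rw [gstar_sub]
  have h1 : gstar (1 : R) = 1 := by
    rw [MonoidAlgebra.one_def]
    have : gstar (single 1 1 : R) = single (1 : Grp torus)⁻¹ 1 := MonoidAlgebra.mapDomain_single
    rw [this, inv_one]
  have h2 : gstar (single g 1 : R) = single g⁻¹ 1 := MonoidAlgebra.mapDomain_single
  rw [h1, h2]

lemma augHom_one_sub (g : Grp torus) : augHom (1 - single g 1 : R) = 0 := by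
  rw [map_sub, map_one, augHom_single, sub_self]

end aux

/-- **`ker D₀ ≠ SC₁` for the torus.** -/
theorem result :
    -- the presented group is `ℤ²`
    Nonempty (Grp torus ≃* Multiplicative (ℤ × ℤ)) ∧
    -- the cellular chain complex `0 → ℝΓ → ℝΓ² → ℝΓ → ℝ → 0` of the universal cover is exact
    (∀ w : Fin 1 → MonoidAlgebra ℝ (Grp torus), w ᵥ* d₁ torus = 0 → w = 0) ∧
    (∀ v : Fin 2 → MonoidAlgebra ℝ (Grp torus),
      v ᵥ* d₀ torus = 0 ↔ ∃ w : Fin 1 → MonoidAlgebra ℝ (Grp torus), w ᵥ* d₁ torus = v) ∧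
    (∀ u : Fin 1 → MonoidAlgebra ℝ (Grp torus),
      aug (u 0) = 0 ↔ ∃ v : Fin 2 → MonoidAlgebra ℝ (Grp torus), v ᵥ* d₀ torus = u) ∧
    -- and `ker D₀` is not contained in `SC₁`
    ∃ a : Matrix (Fin 2) (Fin 2) (MonoidAlgebra ℝ (Grp torus)),
      adj (d₀ torus) * a * d₀ torus = 0 ∧
      ∀ (x : Matrix (Fin 1) (Fin 2) (MonoidAlgebra ℝ (Grp torus)))
        (y : Matrix (Fin 2) (Fin 1) (MonoidAlgebra ℝ (Grp torus))),
        a ≠ adj (d₁ torus) * x + y * d₁ torus := by
  refine ⟨⟨e⟩, ?_, ?_, ?_, ?_⟩
  · intro w hw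
    have h := congrFun hw 0
    simp only [Matrix.vecMul, dotProduct, Fin.sum_univ_one, Pi.zero_apply] at h
    have h' : w 0 * (1 - T) = 0 := by rw [← d₁_zero]; exact h
    rcases R_mul_eq_zero h' with h1 | h1
    · ext1 i; fin_cases i; exact h1
    · exact absurd h1 one_sub_T_ne
  · intro v
    have hv : v ᵥ* d₀ torus = 0 ↔ v 0 * (1 - S) + v 1 * (1 - T) = 0 := by
      constructor
      · intro h
        have := congrFun h 0
        simp only [Matrix.vecMul, dotProduct, Fin.sum_univ_two, Pi.zero_apply] at this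
        exact this
      · intro h
        ext1 i; fin_cases i
        simp only [Matrix.vecMul, dotProduct, Fin.sum_univ_two, Pi.zero_apply]
        exact h
    have hw : ∀ w : Fin 1 → R, w ᵥ* d₁ torus = v ↔ w 0 * (1 - T) = v 0 ∧ w 0 * (S - 1) = v 1 := by
      intro w
      constructor
      · intro h
        have h0 := congrFun h 0
        have h1 := congrFun h 1
        simp only [Matrix.vecMul, dotProduct, Fin.sum_univ_one] at h0 h1
        rw [d₁_zero] at h0
        rw [d₁_one] at h1
        exact ⟨h0, h1⟩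
      · rintro ⟨h0, h1⟩
        ext1 i; fin_cases i
        · simp only [Matrix.vecMul, dotProduct, Fin.sum_univ_one]
          change w 0 * d₁ torus 0 0 = v 0
          rw [d₁_zero]; exact h0
        · simp only [Matrix.vecMul, dotProduct, Fin.sum_univ_one]
          change w 0 * d₁ torus 0 1 = v 1
          rw [d₁_one]; exact h1
    rw [hv]
    constructor
    · intro h
      obtain ⟨c, hc⟩ := sub_π (v 0)
      have hP : mapDomainRingHom ℝ π (v 0) * (1 - S) = 0 := by
        have h2 := congrArg (mapDomainRingHom ℝ π) h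
        rw [map_add, map_mul, map_mul, map_sub, map_sub, map_one, map_zero] at h2
        have hS : mapDomainRingHom ℝ π S = S := by
          simp [S, π_s]
        have hT : mapDomainRingHom ℝ π T = 1 := by
          simp [T, π_t, MonoidAlgebra.one_def]
        rw [hS, hT, sub_self, mul_zero, add_zero] at h2
        exact h2
      have h0 : mapDomainRingHom ℝ π (v 0) = 0 := by
        rcases R_mul_eq_zero hP with h1 | h1
        · exact h1
        · exact absurd h1 one_sub_S_ne
      rw [h0, sub_zero] at hc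
      refine ⟨fun _ => c, (hw _).2 ⟨hc.symm, ?_⟩⟩
      have h3 : (c * (1 - S) + v 1) * (1 - T) = 0 := by
        rw [← h, hc]
        rw [add_mul, mul_assoc, mul_assoc, R_comm (1 - S) (1 - T)]
      rcases R_mul_eq_zero h3 with h1 | h1
      · have : v 1 = - (c * (1 - S)) := by
          rw [eq_neg_iff_add_eq_zero, add_comm]; exact h1
        rw [this]; noncomm_ring
      · exact absurd h1 one_sub_T_ne
    · rintro ⟨w, h⟩
      obtain ⟨h0, h1⟩ := (hw w).1 h
      rw [← h0, ← h1, mul_assoc, mul_assoc, R_comm (1 - T) (1 - S)]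
      noncomm_ring
  · intro u
    rw [← augHom_eq]
    have hv : ∀ v : Fin 2 → R, v ᵥ* d₀ torus = u ↔ v 0 * (1 - S) + v 1 * (1 - T) = u 0 := by
      intro v
      constructor
      · intro h
        have := congrFun h 0
        simp only [Matrix.vecMul, dotProduct, Fin.sum_univ_two] at this
        exact this
      · intro h
        ext1 i; fin_cases i
        simp only [Matrix.vecMul, dotProduct, Fin.sum_univ_two]
        exact h
    constructor
    · intro h
      obtain ⟨a, b, hab⟩ := sub_aug (u 0)
      refine ⟨![a, b], (hv _).2 ?_⟩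
      rw [h, single_zero, sub_zero] at hab
      exact hab.symm
    · rintro ⟨v, h⟩
      rw [← (hv v).1 h, map_add, map_mul, map_mul, augHom_one_sub, augHom_one_sub]
      simp
  · refine ⟨!![0, S; -T, 0], ?_, ?_⟩
    · have key : (1 - T) * (1 - S) + (S - 1) * (1 - T) = (0 : R) := by
        rw [R_comm (S - 1)]; noncomm_ring
      have hST : (1 - (single s⁻¹ 1 : R)) * S = S - 1 := by
        rw [sub_mul, single_mul_single, inv_mul_cancel, MonoidAlgebra.one_def]
        simp
      have hTT : (1 - (single t⁻¹ 1 : R)) * -T = 1 - T := by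
        rw [mul_neg, sub_mul, single_mul_single, inv_mul_cancel, MonoidAlgebra.one_def]
        simp
      ext1 i j
      fin_cases i; fin_cases j
      simp only [Matrix.mul_apply, Fin.sum_univ_two]
      change (adj (d₀ torus) 0 0 * 0 + adj (d₀ torus) 0 1 * -T) * (1 - S)
        + (adj (d₀ torus) 0 0 * S + adj (d₀ torus) 0 1 * 0) * (1 - T) = 0
      have h1 : adj (d₀ torus) 0 0 = 1 - (single s⁻¹ 1 : R) := gstar_one_sub s
      have h2 : adj (d₀ torus) 0 1 = 1 - (single t⁻¹ 1 : R) := gstar_one_sub t
      rw [h1, h2, hST, hTT, mul_zero, mul_zero, zero_add, add_zero]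
      exact key
    · intro x y h
      have h01 := congrArg augHom (congrFun (congrFun h 0) 1)
      simp only [Matrix.add_apply, Matrix.mul_apply, Fin.sum_univ_one] at h01
      change augHom S = _ at h01
      rw [map_add, map_mul, map_mul, augHom_single] at h01
      have h1 : augHom (adj (d₁ torus) 0 0) = 0 := by
        change augHom (gstar (d₁ torus 0 0)) = 0
        rw [augHom_gstar, d₁_zero, augHom_one_sub]
      have h2 : augHom (d₁ torus 0 1) = 0 := by
        rw [d₁_one, map_sub, map_one, augHom_single, sub_self]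
      rw [h1, h2] at h01
      simp at h01

end Pool.Agent.Results.MP_abda90_al.TorusCounterexample
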